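import Mathlib
import Pool.Agent.Q312.Ruler

/-!
MP_bb9d96_lc: the minimum step of a shift of finite type can be exponential in the number of
vertices of its smallest deterministic presentation.
-/

namespace Pool.Agent.Results.MP_bb9d96_lc.ExponentialStep

open Pool.Agent.Q312 Filter

/-- A presentation: a finite directed graph (multiple edges allowed) with labelled edges. -/
structure Pres (A : Type) where
  /-- vertices -/
  V : Type
  /-- edges -/
  E : Type
  finV : Finite V
  finE : Finite E
  /-- source of an edge -/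
  src : E → V
  /-- target of an edge -/
  tgt : E → V
  /-- label of an edge -/
  lab : E → A

/-- The shift space presented by `G`: the label sequences of all bi-infinite walks. -/
def Pres.shift {A : Type} (G : Pres A) : Set (ℤ → A) :=
  {x | ∃ e : ℤ → G.E, (∀ n, G.tgt (e n) = G.src (e (n + 1))) ∧ ∀ n, x n = G.lab (e n)}

/-- At every vertex and for every symbol, at most one outgoing edge carries the symbol. -/
def Pres.Deterministic {A : Type} (G : Pres A) : Prop :=
  ∀ e e' : G.E, G.src e = G.src e' → G.lab e = G.lab e' → e = e'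

/-- The word of length `n` occurring in `x` at position `i`. -/
def window {A : Type} (x : ℤ → A) (i : ℤ) (n : ℕ) : List A := List.ofFn fun k : Fin n => x (i + k)

/-- `X` is `M`-step: it is the set of sequences avoiding some set of words of length `M + 1`. -/
def IsStep {A : Type} (X : Set (ℤ → A)) (M : ℕ) : Prop :=
  ∃ F : Set (List A), (∀ w ∈ F, w.length = M + 1) ∧ X = {x | ∀ i, window x i (M + 1) ∉ F}

/-- Shift of finite type. -/
def IsSFT {A : Type} (X : Set (ℤ → A)) : Prop := ∃ M, IsStep X M

/-- The minimum step. -/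
noncomputable def minStep {A : Type} (X : Set (ℤ → A)) : ℕ := sInf {M | IsStep X M}

/-- The numbers of vertices of deterministic presentations of `X`. -/
def detSizes {A : Type} (X : Set (ℤ → A)) : Set ℕ :=
  {n | ∃ G : Pres A, G.Deterministic ∧ G.shift = X ∧ Nat.card G.V = n}

/-- The least number of vertices of a deterministic presentation of `X`. -/
noncomputable def sd {A : Type} (X : Set (ℤ → A)) : ℕ := sInf (detSizes X)

/-! ### The shifts -/

/-- The alphabet: `inr false` is the letter `a`, `inr true` is the letter `b`, and `inl j` are the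
counter letters. -/
abbrev Al (k : ℕ) : Type := Fin k ⊕ Bool

/-- type of a letter -/
def tp {k : ℕ} : Al k → ℕ
  | .inr false => 0
  | .inl _ => 1
  | .inr true => 2

/-- the ruler word over `Fin k` -/
def rw' (k : ℕ) : List (Fin k) := (Ruler.W k).pmap Fin.mk (Ruler.W_lt k)

lemma map_rw (k : ℕ) : (rw' k).map Fin.val = Ruler.W k := by
  unfold rw'
  rw [List.map_pmap]
  simp

lemma length_rw (k : ℕ) : (rw' k).length = 2 ^ k - 1 := by
  unfold rw'
  rw [List.length_pmap, Ruler.length_W]

lemma unique' (k : ℕ) (u : List (Fin k)) :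
    (∀ i < k, Ruler.run i (u.map Fin.val) (some false) = some true) ↔ u = rw' k := by
  rw [Ruler.unique k (u.map Fin.val) (by
    intro x hx
    obtain ⟨y, _, rfl⟩ := List.mem_map.mp hx
    exact y.2), ← map_rw]
  exact (List.map_injective_iff.mpr Fin.val_injective).eq_iff

/-- the forbidden word `a w b` -/
def bad (k : ℕ) : List (Al k) := Sum.inr false :: ((rw' k).map Sum.inl ++ [Sum.inr true])

lemma length_bad (k : ℕ) : (bad k).length = 2 ^ k + 1 := by
  unfold bad
  rw [List.length_cons, List.length_append, List.length_map, length_rw]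
  have := Nat.one_le_two_pow (n := k)
  simp; omega

/-- the shift space -/
def Xk (k : ℕ) : Set (ℤ → Al k) :=
  {x | (∀ n, tp (x n) ≤ tp (x (n + 1))) ∧ ∀ n, window x n (2 ^ k + 1) ≠ bad k}

lemma window_length {A : Type} (x : ℤ → A) (i : ℤ) (n : ℕ) : (window x i n).length = n := by
  simp [window]

lemma window_get {A : Type} (x : ℤ → A) (i : ℤ) (n j : ℕ) (h : j < (window x i n).length) :
    (window x i n)[j] = x (i + j) := by
  simp [window]

lemma window_succ {A : Type} (x : ℤ → A) (i : ℤ) (n : ℕ) :
    window x i (n + 1) = x i :: window x (i + 1) n := by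
  unfold window
  rw [List.ofFn_succ]
  simp only [Fin.val_zero, Nat.cast_zero, add_zero, Fin.val_succ, Nat.cast_add, Nat.cast_one]
  congr 2
  funext j
  congr 1
  ring

/-- `Xk` is `2^k`-step -/
lemma isStep_Xk (k : ℕ) : IsStep (Xk k) (2 ^ k) := by
  refine ⟨{u | u.length = 2 ^ k + 1 ∧ ((∃ a b l, u = a :: b :: l ∧ tp b < tp a) ∨ u = bad k)},
    fun w hw => hw.1, ?_⟩
  have h1 : 1 ≤ 2 ^ k := Nat.one_le_two_pow
  obtain ⟨m, hm⟩ : ∃ m, 2 ^ k = m + 1 := ⟨2 ^ k - 1, by omega⟩
  ext x
  constructor
  · rintro ⟨h2, h3⟩ i ⟨_, h5⟩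
    rcases h5 with ⟨a, b, l, h6, h7⟩ | h5
    · rw [hm, window_succ, window_succ] at h6
      simp only [List.cons.injEq] at h6
      have := h2 i
      rw [h6.1, h6.2.1] at this
      omega
    · exact h3 i h5
  · intro h
    refine ⟨fun n => ?_, fun n hn => h n ⟨window_length _ _ _, Or.inr hn⟩⟩
    by_contra hcon
    apply h n
    refine ⟨window_length _ _ _, Or.inl ?_⟩
    rw [hm, window_succ, window_succ]
    exact ⟨_, _, _, rfl, not_le.mp hcon⟩

/-- the sequence `a^∞ w b^∞` -/
def yk (k : ℕ) : ℤ → Al k := fun n =>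
  if n < 0 then Sum.inr false
  else if h : n.toNat < (rw' k).length then Sum.inl (rw' k)[n.toNat] else Sum.inr true

lemma yk_neg (k : ℕ) (n : ℤ) (h : n < 0) : yk k n = Sum.inr false := by simp [yk, h]

lemma yk_mid (k : ℕ) (j : ℕ) (h : j < (rw' k).length) : yk k j = Sum.inl (rw' k)[j] := by
  simp [yk, h]

lemma yk_big (k : ℕ) (n : ℤ) (h : ((2 ^ k - 1 : ℕ) : ℤ) ≤ n) : yk k n = Sum.inr true := by
  have h0 : ¬ n < 0 := by omega
  have h1 : ¬ n.toNat < (rw' k).length := by rw [length_rw]; omega
  unfold yk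
  rw [if_neg h0, dif_neg h1]

lemma yk_mid' (k : ℕ) (n : ℤ) (h0 : 0 ≤ n) (h1 : n < ((2 ^ k - 1 : ℕ) : ℤ)) :
    ∃ j, yk k n = Sum.inl j := by
  lift n to ℕ using h0
  refine ⟨_, yk_mid k n ?_⟩
  rw [length_rw]; exact_mod_cast h1

lemma yk_mono (k : ℕ) {m n : ℤ} (h : m ≤ n) : tp (yk k m) ≤ tp (yk k n) := by
  rcases lt_or_ge m 0 with h1 | h1
  · rw [yk_neg k m h1]; exact Nat.zero_le _
  · rcases lt_or_ge m ((2 ^ k - 1 : ℕ) : ℤ) with h2 | h2
    · obtain ⟨j, hj⟩ := yk_mid' k m h1 h2
      rw [hj]
      rcases lt_or_ge n ((2 ^ k - 1 : ℕ) : ℤ) with h3 | h3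
      · obtain ⟨j', hj'⟩ := yk_mid' k n (h1.trans h) h3
        rw [hj']; exact le_rfl
      · rw [yk_big k n h3]; simp [tp]
    · rw [yk_big k m h2, yk_big k n (h2.trans h)]

lemma window_yk (k : ℕ) : window (yk k) (-1) (2 ^ k + 1) = bad k := by
  apply List.ext_getElem
  · rw [window_length, length_bad]
  · intro j h1 h2
    rw [window_get]
    rw [window_length] at h1
    have hp := Nat.one_le_two_pow (n := k)
    rcases j with _ | j
    · simp [yk, bad]
    · have e0 : (bad k)[j + 1] = ((rw' k).map Sum.inl ++ [Sum.inr true])[j]'(by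
        simpa [bad] using h2) := rfl
      rw [e0]
      have e : (-1 : ℤ) + ((j + 1 : ℕ) : ℤ) = j := by push_cast; ring
      rw [e]
      rcases Nat.lt_or_ge j (rw' k).length with h3 | h3
      · rw [yk_mid k j h3, List.getElem_append_left (by simpa using h3)]
        simp
      · rw [yk_big k j (by rw [length_rw] at h3; exact_mod_cast h3),
          List.getElem_append_right (by simpa using h3)]
        simp

lemma yk_not_mem (k : ℕ) : yk k ∉ Xk k := fun h => h.2 (-1) (window_yk k)

lemma bad_window {k : ℕ} {x : ℤ → Al k} {n : ℤ} (h : window x n (2 ^ k + 1) = bad k) (j : ℕ)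
    (hj : j ≤ 2 ^ k) : x (n + j) = yk k (-1 + j) := by
  rw [← window_yk] at h
  have h2 : (window x n (2 ^ k + 1))[j]? = (window (yk k) (-1) (2 ^ k + 1))[j]? := by rw [h]
  rw [List.getElem?_eq_getElem (by rw [window_length]; omega), window_get,
    List.getElem?_eq_getElem (by rw [window_length]; omega), window_get] at h2
  exact Option.some_inj.mp h2

lemma bad_zero {k : ℕ} {x : ℤ → Al k} {n : ℤ} (h : window x n (2 ^ k + 1) = bad k) :
    x n = Sum.inr false := by
  have h1 := bad_window h 0 (Nat.zero_le _)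
  simpa [yk] using h1

lemma bad_last {k : ℕ} {x : ℤ → Al k} {n : ℤ} (h : window x n (2 ^ k + 1) = bad k) :
    x (n + ((2 ^ k : ℕ) : ℤ)) = Sum.inr true := by
  rw [bad_window h (2 ^ k) le_rfl]
  apply yk_big
  have := Nat.one_le_two_pow (n := k)
  omega

lemma bad_mid {k : ℕ} {x : ℤ → Al k} {n : ℤ} (h : window x n (2 ^ k + 1) = bad k) (j : ℕ)
    (h1 : 1 ≤ j) (h2 : j < 2 ^ k) : ∃ l, x (n + j) = Sum.inl l := by
  rw [bad_window h j h2.le]
  apply yk_mid' <;> omega

/-- `Xk` is not `M`-step for `M < 2^k`. -/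
lemma not_isStep (k : ℕ) (hk : 1 ≤ k) (M : ℕ) (hM : M < 2 ^ k) : ¬ IsStep (Xk k) M := by
  rintro ⟨F, _, hF⟩
  have hy : ¬ ∀ i, window (yk k) i (M + 1) ∉ F := by
    intro h
    apply yk_not_mem k
    rw [hF]; exact h
  push Not at hy
  obtain ⟨i, hi⟩ := hy
  -- it is enough to find an element of the shift with the same window
  suffices h : ∃ x ∈ Xk k, window x i (M + 1) = window (yk k) i (M + 1) by
    obtain ⟨x, hx, hxw⟩ := h
    rw [hF] at hx
    apply hx i
    rw [hxw]; exact hi
  have hp := Nat.one_le_two_pow (n := k)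
  let g0 : Al k := Sum.inl ⟨0, hk⟩
  have htg : tp g0 = 1 := rfl
  rcases lt_or_ge (i + M) ((2 ^ k - 1 : ℕ) : ℤ) with h1 | h1
  · -- replace the letters `b`
    refine ⟨fun n => if n < ((2 ^ k - 1 : ℕ) : ℤ) then yk k n else g0, ⟨?_, ?_⟩, ?_⟩
    · intro n
      dsimp only
      split_ifs with h2 h3 h3
      · exact yk_mono k (by omega)
      · rw [htg]
        rcases lt_or_ge n 0 with h4 | h4
        · rw [yk_neg k n h4]; exact Nat.zero_le _
        · obtain ⟨j, hj⟩ := yk_mid' k n h4 h2
          rw [hj]; exact le_rfl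
      · omega
      · exact le_rfl
    · intro n hn
      have h4 := bad_last hn
      split_ifs at h4 with h5
      · rcases lt_or_ge (n + ((2 ^ k : ℕ) : ℤ)) 0 with h6 | h6
        · rw [yk_neg k _ h6] at h4; simp at h4
        · obtain ⟨j, hj⟩ := yk_mid' k _ h6 h5
          rw [hj] at h4; simp at h4
    · unfold window
      congr 1
      funext j
      have : i + (j : ℕ) < ((2 ^ k - 1 : ℕ) : ℤ) := by
        have := j.2
        omega
      exact if_pos this
  · rcases lt_or_ge i 0 with h2 | h2
    · omega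
    · -- replace the letters `a`
      refine ⟨fun n => if 0 ≤ n then yk k n else g0, ⟨?_, ?_⟩, ?_⟩
      · intro n
        dsimp only
        split_ifs with h3 h4 h4
        · exact yk_mono k (by omega)
        · omega
        · rw [htg]
          rcases lt_or_ge (n + 1) ((2 ^ k - 1 : ℕ) : ℤ) with h5 | h5
          · obtain ⟨j, hj⟩ := yk_mid' k _ h4 h5
            rw [hj]; exact le_rfl
          · rw [yk_big k _ h5]; simp [tp]
        · exact le_rfl
      · intro n hn
        have h5 := bad_zero hn
        split_ifs at h5 with h6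
        · rcases lt_or_ge n ((2 ^ k - 1 : ℕ) : ℤ) with h7 | h7
          · obtain ⟨j, hj⟩ := yk_mid' k _ h6 h7
            rw [hj] at h5; simp at h5
          · rw [yk_big k _ h7] at h5; simp at h5
      · unfold window
        congr 1
        funext j
        have : 0 ≤ i + (j : ℕ) := by omega
        exact if_pos this

lemma minStep_Xk (k : ℕ) (hk : 1 ≤ k) : minStep (Xk k) = 2 ^ k := by
  have h1 : IsStep (Xk k) (minStep (Xk k)) :=
    Nat.sInf_mem (s := {M | IsStep (Xk k) M}) ⟨_, isStep_Xk k⟩
  apply le_antisymm (Nat.sInf_le (isStep_Xk k))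
  by_contra h
  exact not_isStep k hk _ (not_le.mp h) h1

/-! ### Lower bound on the number of vertices of a presentation -/

/-- the vertices of `G` which can be reached by a left-infinite walk labelled by `x` up to `j` -/
def T {A : Type} (G : Pres A) (x : ℤ → A) (j : ℤ) : Set G.V :=
  {v | ∃ e : ℤ → G.E, (∀ m < j, x m = G.lab (e m)) ∧
    (∀ m, m + 1 < j → G.tgt (e m) = G.src (e (m + 1))) ∧ G.tgt (e (j - 1)) = v}

lemma T_inj {k : ℕ} {G : Pres (Al k)} (hG : G.shift = Xk k) {i j : ℕ} (hij : i < j)
    (hj : j < 2 ^ k) (h : T G (yk k) i = T G (yk k) j) : False := by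
  obtain ⟨d, rfl⟩ : ∃ d, j = i + d := ⟨j - i, by omega⟩
  have hd : 1 ≤ d := by omega
  have hp := Nat.one_le_two_pow (n := k)
  -- the sequence with a segment removed
  have hy : (fun n => if n < (i : ℤ) then yk k n else yk k (n + d)) ∈ Xk k := by
    refine ⟨fun n => ?_, fun n hn => ?_⟩
    · dsimp only
      split_ifs with h1 h2 h2
      · exact yk_mono k (by omega)
      · exact yk_mono k (by omega)
      · omega
      · exact yk_mono k (by omega)
    · have h0 := bad_zero hn
      have h1 : n < 0 := by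
        by_contra hcon
        split_ifs at h0 with h2
        · rcases lt_or_ge n ((2 ^ k - 1 : ℕ) : ℤ) with h3 | h3
          · obtain ⟨l, hl⟩ := yk_mid' k n (by omega) h3
            rw [hl] at h0; simp at h0
          · rw [yk_big k n h3] at h0; simp at h0
        · rcases lt_or_ge (n + d) ((2 ^ k - 1 : ℕ) : ℤ) with h3 | h3
          · obtain ⟨l, hl⟩ := yk_mid' k (n + d) (by omega) h3
            rw [hl] at h0; simp at h0
          · rw [yk_big k _ h3] at h0; simp at h0
      have h2 : ¬ n + 1 < 0 := by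
        intro h2
        obtain ⟨l, hl⟩ := bad_mid hn 1 le_rfl (by omega)
        have h3 : n + ((1 : ℕ) : ℤ) < i := by push_cast; omega
        rw [if_pos h3, yk_neg k _ (by push_cast; omega)] at hl
        simp at hl
      have h3 : n = -1 := by omega
      subst h3
      obtain ⟨l, hl⟩ := bad_mid hn (2 ^ k - 1) (by omega) (by omega)
      have h4 : ¬ (-1 + ((2 ^ k - 1 : ℕ) : ℤ) < i) := by omega
      rw [if_neg h4, yk_big k _ (by omega)] at hl
      simp at hl
  rw [← hG] at hy
  obtain ⟨e, he, hel⟩ := hy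
  have hv : G.src (e i) ∈ T G (yk k) i := by
    refine ⟨e, fun m hm => ?_, fun m _ => he m, ?_⟩
    · rw [← hel m]
      exact (if_pos hm).symm
    · rw [he (i - 1)]
      congr 2
      ring
  rw [h] at hv
  obtain ⟨e', h1, h2, h3⟩ := hv
  apply yk_not_mem k
  rw [← hG]
  refine ⟨fun n => if n < ((i + d : ℕ) : ℤ) then e' n else e (n - d), fun n => ?_, fun n => ?_⟩
  · dsimp only
    split_ifs with h4 h5 h5
    · exact h2 n h5
    · have h6 : n = ((i + d : ℕ) : ℤ) - 1 := by omega
      have h7 : n + 1 - d = i := by rw [h6]; push_cast; ring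
      rw [h7, h6, h3]
    · omega
    · rw [he (n - d)]
      congr 2
      ring
  · dsimp only
    split_ifs with h4
    · exact h1 n h4
    · rw [← hel (n - d)]
      have h5 : ¬ (n - d < (i : ℤ)) := by push_cast at h4; omega
      have h6 : yk k n = yk k (n - d + d) := by congr 1; ring
      rw [h6]
      exact (if_neg h5).symm

lemma le_card {k : ℕ} {G : Pres (Al k)} (hG : G.shift = Xk k) : k ≤ Nat.card G.V := by
  have := G.finV
  have hinj : Function.Injective fun j : Fin (2 ^ k) => T G (yk k) (j : ℕ) := by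
    intro i j h
    rcases lt_trichotomy i j with h1 | h1 | h1
    · exact (T_inj hG h1 j.2 h).elim
    · exact h1
    · exact (T_inj hG h1 i.2 h.symm).elim
  have h1 := Nat.card_le_card_of_injective _ hinj
  rw [Nat.card_fin] at h1
  have h2 : Nat.card (Set G.V) = 2 ^ Nat.card G.V := by
    have := Fintype.ofFinite G.V
    rw [Nat.card_eq_fintype_card, Fintype.card_set, Nat.card_eq_fintype_card]
  rw [h2] at h1
  exact (Nat.pow_le_pow_iff_right (by norm_num)).mp h1

/-! ### The deterministic presentation with `5k` vertices -/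

/-- the vertices of one component: `P` (reading `a`s), `S s` (reading counter letters, `s` being
the state of the checking automaton) and `Q` (reading `b`s). -/
inductive Vt
  | P
  | S (s : Option Bool)
  | Q

/-- the vertices of one component are equivalent to `Option (Option (Option Bool))` -/
def eVt : Vt ≃ Option (Option (Option Bool)) where
  toFun
    | .P => none
    | .Q => some none
    | .S s => some (some s)
  invFun
    | none => .P
    | some none => .Q
    | some (some s) => .S s
  left_inv v := by rcases v <;> rfl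
  right_inv v := by rcases v with _ | _ | _ <;> rfl

instance : Finite Vt := Finite.of_equiv _ eVt.symm

lemma card_Vt : Nat.card Vt = 5 := by
  rw [Nat.card_congr eVt, Nat.card_eq_fintype_card]; rfl

/-- transitions of the component `i` -/
def dl {k : ℕ} (i : ℕ) : Vt → Al k → Option Vt
  | .P, .inr false => some .P
  | .P, .inl j => some (.S (Ruler.stp i false j))
  | .P, .inr true => some .Q
  | .S _, .inr false => none
  | .S s, .inl j => some (.S (s.bind fun b => Ruler.stp i b j))
  | .S s, .inr true => if s = some true then none else some .Q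
  | .Q, .inr true => some .Q
  | .Q, .inl _ => none
  | .Q, .inr false => none

/-- the graph -/
def Gk (k : ℕ) : Pres (Al k) where
  V := Fin k × Vt
  E := {t : Fin k × Vt × Al k × Vt // dl t.1 t.2.1 t.2.2.1 = some t.2.2.2}
  finV := inferInstance
  finE := inferInstance
  src t := (t.1.1, t.1.2.1)
  tgt t := (t.1.1, t.1.2.2.2)
  lab t := t.1.2.2.1

lemma Gk_det (k : ℕ) : (Gk k).Deterministic := by
  rintro ⟨⟨i, v, a, w⟩, h⟩ ⟨⟨i', v', a', w'⟩, h'⟩ h1 h2
  simp only [Gk, Prod.mk.injEq] at h1 h2
  obtain ⟨rfl, rfl⟩ := h1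
  subst h2
  dsimp only at h h'
  have h3 : w = w' := by
    rw [h] at h'
    exact Option.some_inj.mp h'
  subst h3
  rfl

lemma card_Gk (k : ℕ) : Nat.card (Gk k).V = 5 * k := by
  change Nat.card (Fin k × Vt) = _
  rw [Nat.card_prod, card_Vt, Nat.card_fin, mul_comm]

/-- walks as runs -/
lemma mem_Gk (k : ℕ) (x : ℤ → Al k) :
    x ∈ (Gk k).shift ↔ ∃ i : Fin k, ∃ q : ℤ → Vt, ∀ n, dl i (q n) (x n) = some (q (n + 1)) := by
  constructor
  · rintro ⟨e, h1, h2⟩
    have h3 : ∀ n, (e n).1.1 = (e 0).1.1 := by
      intro n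
      have h4 : ∀ n, (e (n + 1)).1.1 = (e n).1.1 := fun n => (congrArg Prod.fst (h1 n)).symm
      induction n using Int.induction_on with
      | zero => rfl
      | succ n ih => rw [h4, ih]
      | pred n ih =>
        have := h4 (-(n : ℤ) - 1)
        rw [sub_add_cancel] at this
        rw [← this, ih]
    refine ⟨(e 0).1.1, fun n => (e n).1.2.1, fun n => ?_⟩
    have h4 := (e n).2
    rw [h3 n] at h4
    have h5 : (e n).1.2.2.2 = (e (n + 1)).1.2.1 := congrArg Prod.snd (h1 n)
    have h6 : x n = (e n).1.2.2.1 := h2 n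
    change dl _ (e n).1.2.1 (x n) = some (e (n + 1)).1.2.1
    rw [h6, ← h5]
    exact h4
  · rintro ⟨i, q, h⟩
    exact ⟨fun n => ⟨(i, q n, x n, q (n + 1)), h n⟩, fun n => rfl, fun n => rfl⟩

/-- words along a run -/
lemma run_S {k : ℕ} (i : ℕ) (x : ℤ → Al k) (q : ℤ → Vt)
    (h : ∀ n, dl i (q n) (x n) = some (q (n + 1))) (u : List (Fin k)) (n : ℤ) (s : Option Bool)
    (hq : q n = .S s) (hx : window x n u.length = u.map Sum.inl) :
    q (n + u.length) = .S (Ruler.run i (u.map Fin.val) s) := by
  induction u generalizing n s with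
  | nil => simpa using hq
  | cons j u ih =>
    rw [List.length_cons, window_succ, List.map_cons, List.cons.injEq] at hx
    have h1 := h n
    rw [hq, hx.1] at h1
    have h2 := ih (n + 1) _ (Option.some_inj.mp h1).symm hx.2
    rw [List.map_cons, Ruler.run_cons, ← h2]
    congr 1
    rw [List.length_cons]; push_cast; ring

lemma window_append {A : Type} (x : ℤ → A) (i : ℤ) (m n : ℕ) :
    window x i (m + n) = window x i m ++ window x (i + m) n := by
  apply List.ext_getElem
  · simp [window_length]
  · intro j h1 h2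
    rw [window_get]
    rcases Nat.lt_or_ge j m with h3 | h3
    · rw [List.getElem_append_left (by rw [window_length]; exact h3), window_get]
    · rw [List.getElem_append_right (by rw [window_length]; exact h3), window_get, window_length]
      congr 1
      omega

lemma Gk_sub (k : ℕ) (hk : 1 ≤ k) : (Gk k).shift ⊆ Xk k := by
  intro x hx
  obtain ⟨i, q, h⟩ := (mem_Gk k x).mp hx
  have hp := Nat.one_le_two_pow (n := k)
  have hp2 : 2 ≤ 2 ^ k := by
    calc 2 = 2 ^ 1 := rfl
      _ ≤ 2 ^ k := Nat.pow_le_pow_right (by norm_num) hk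
  refine ⟨fun n => ?_, fun n hn => ?_⟩
  · have h1 := h n
    have h2 := h (n + 1)
    rcases hxn : x n with j | _ | _ <;> rcases hxn' : x (n + 1) with j' | _ | _ <;>
      rw [hxn] at h1 <;> rw [hxn'] at h2 <;> simp only [tp] <;> try omega
    · exfalso
      rcases hq : q n with _ | s | _ <;> rw [hq] at h1 <;> simp only [dl, Option.some_inj] at h1
      · rw [← h1] at h2; simp [dl] at h2
      · rw [← h1] at h2; simp [dl] at h2
      · simp at h1
    · exfalso
      rcases hq : q n with _ | s | _ <;> rw [hq] at h1 <;> simp only [dl, Option.some_inj] at h1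
      · rw [← h1] at h2; simp [dl] at h2
      · split_ifs at h1
        rw [← Option.some_inj.mp h1] at h2; simp [dl] at h2
      · rw [← h1] at h2; simp [dl] at h2
    · exfalso
      rcases hq : q n with _ | s | _ <;> rw [hq] at h1 <;> simp only [dl, Option.some_inj] at h1
      · rw [← h1] at h2; simp [dl] at h2
      · split_ifs at h1
        rw [← Option.some_inj.mp h1] at h2; simp [dl] at h2
      · rw [← h1] at h2; simp [dl] at h2
  · -- the word `a w b`
    have h0 := bad_zero hn
    have h1 := h n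
    rw [h0] at h1
    have h2 : q (n + 1) = .P := by
      rcases hq : q n with _ | s | _ <;> rw [hq] at h1 <;> simp only [dl, Option.some_inj] at h1
      · exact h1.symm
      · simp at h1
      · simp at h1
    have h3 : 2 ^ k + 1 = 1 + ((rw' k).length + 1) := by rw [length_rw]; omega
    rw [h3, window_append, window_append] at hn
    have h4 : bad k = [Sum.inr false] ++ ((rw' k).map Sum.inl ++ [Sum.inr true]) := rfl
    rw [h4] at hn
    have h5 := (List.append_inj hn (by simp [window_length])).2
    have h6 := (List.append_inj h5 (by simp [window_length])).1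
    have h7 := (List.append_inj h5 (by simp [window_length])).2
    push_cast at h6 h7
    -- the first letter of the ruler word
    rcases hw : rw' k with _ | ⟨j, u⟩
    · have := length_rw k
      rw [hw] at this
      simp at this
      omega
    · have hrun := (unique' k (rw' k)).mpr rfl i i.2
      rw [hw] at h6 h7 hrun
      rw [List.length_cons, window_succ, List.map_cons, List.cons.injEq] at h6
      have h8 := h (n + 1)
      rw [h2, h6.1] at h8
      have h9 := run_S i x q h u (n + 1 + 1) _ (Option.some_inj.mp h8).symm h6.2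
      rw [List.map_cons, Ruler.run_cons] at hrun
      have h10 : Ruler.run i (u.map Fin.val) (Ruler.stp i false j) = some true := hrun
      rw [h10] at h9
      have h11 := h (n + 1 + 1 + u.length)
      rw [h9] at h11
      have h12 : x (n + 1 + 1 + u.length) = Sum.inr true := by
        rw [window_succ, List.cons.injEq] at h7
        rw [← h7.1]
        congr 1
        rw [List.length_cons]; push_cast; ring
      rw [h12] at h11
      simp [dl] at h11

/-- the number of a counter letter -/
def num {k : ℕ} : Al k → ℕ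
  | .inl j => j
  | .inr _ => 0

lemma mono_of_le {f : ℤ → ℕ} (h : ∀ n, f n ≤ f (n + 1)) {m n : ℤ} (hmn : m ≤ n) : f m ≤ f n :=
  monotone_int_of_le_succ h hmn

lemma tp_zero {k : ℕ} {a : Al k} (h : tp a = 0) : a = Sum.inr false := by
  rcases a with _ | _ | _ <;> simp [tp] at h ⊢

lemma tp_one {k : ℕ} {a : Al k} (h : tp a = 1) : ∃ j, a = Sum.inl j := by
  rcases a with j | _ | _ <;> simp [tp] at h ⊢

lemma tp_two {k : ℕ} {a : Al k} (h : tp a = 2) : a = Sum.inr true := by
  rcases a with _ | _ | _ <;> simp [tp] at h ⊢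

lemma tp_le {k : ℕ} (a : Al k) : tp a ≤ 2 := by
  rcases a with _ | _ | _ <;> simp [tp]

lemma window_snoc {A : Type} (x : ℤ → A) (i : ℤ) (n : ℕ) :
    window x i (n + 1) = window x i n ++ [x (i + n)] := by
  rw [window_append]
  simp [window]

lemma Xk_sub (k : ℕ) (hk : 1 ≤ k) : Xk k ⊆ (Gk k).shift := by
  rintro x ⟨hm, hb⟩
  have hp := Nat.one_le_two_pow (n := k)
  have hmono : ∀ {m n : ℤ}, m ≤ n → tp (x m) ≤ tp (x n) := fun h =>
    mono_of_le (f := fun n => tp (x n)) hm h
  rw [mem_Gk]
  by_cases hall : ∀ n, tp (x n) = 0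
  · refine ⟨⟨0, hk⟩, fun _ => .P, fun n => ?_⟩
    rw [tp_zero (hall n)]; rfl
  by_cases hno : ∀ n, tp (x n) ≠ 0
  · refine ⟨⟨0, hk⟩, fun n => if tp (x (n - 1)) = 2 then .Q else .S none, fun n => ?_⟩
    have e : n + 1 - 1 = n := by ring
    dsimp only
    rw [e]
    have h1 : tp (x (n - 1)) ≤ tp (x n) := hmono (by omega)
    by_cases h2 : tp (x (n - 1)) = 2
    · have h3 : tp (x n) = 2 := le_antisymm (tp_le _) (h2 ▸ h1)
      rw [if_pos h2, if_pos h3, tp_two h3]; rfl
    · rw [if_neg h2]
      by_cases h3 : tp (x n) = 2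
      · rw [if_pos h3, tp_two h3]; rfl
      · have h4 : tp (x n) = 1 := by
          have := tp_le (x n)
          have := hno n
          omega
        obtain ⟨j, hj⟩ := tp_one h4
        rw [if_neg h3, hj]; rfl
  push Not at hall hno
  obtain ⟨p, hp0⟩ := hall
  obtain ⟨z, hz⟩ := hno
  -- the first letter which is not `a`
  obtain ⟨n0, hn0, hn1⟩ : ∃ n0, tp (x n0) ≠ 0 ∧ ∀ m < n0, tp (x m) = 0 := by
    have hzp : z < p := by
      by_contra hcon
      have := hmono (not_lt.mp hcon)
      omega
    obtain ⟨n0, h1, h2⟩ := Int.exists_least_of_bdd (P := fun n => tp (x n) ≠ 0)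
      ⟨z, fun n hn => by
        by_contra hcon
        have := hmono (not_le.mp hcon).le
        omega⟩ ⟨p, hp0⟩
    refine ⟨n0, h1, fun m hm => ?_⟩
    by_contra hcon
    have := h2 m hcon
    omega
  -- the component
  obtain ⟨i, hi⟩ : ∃ i : Fin k, ∀ n : ℕ, tp (x (n0 + n)) = 2 →
      (∀ m < n, tp (x (n0 + m)) = 1) →
      Ruler.run i ((window x n0 n).map num) (some false) ≠ some true := by
    by_contra hcon
    push Not at hcon
    -- the number of counter letters
    obtain ⟨L, hL1, hL2, -⟩ := hcon ⟨0, hk⟩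
    have huniq : ∀ n : ℕ, tp (x (n0 + n)) = 2 → (∀ m < n, tp (x (n0 + m)) = 1) → n = L := by
      intro n h1 h2
      rcases lt_trichotomy n L with h3 | h3 | h3
      · have := hL2 n h3; omega
      · exact h3
      · have := h2 L h3; omega
    have hex : ∃ u : List (Fin k), window x n0 L = u.map Sum.inl := by
      have : ∀ n ≤ L, ∃ u : List (Fin k), window x n0 n = u.map Sum.inl := by
        intro n
        induction n with
        | zero => exact fun _ => ⟨[], rfl⟩
        | succ n ih =>
          intro h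
          obtain ⟨u, hu⟩ := ih (by omega)
          obtain ⟨j, hj⟩ := tp_one (hL2 n (by omega))
          exact ⟨u ++ [j], by rw [window_snoc, hu, hj]; simp⟩
      exact this L le_rfl
    obtain ⟨u, hu⟩ := hex
    have hu2 : u = rw' k := by
      rw [← unique']
      intro i hi
      obtain ⟨n, h1, h2, h3⟩ := hcon ⟨i, hi⟩
      rw [huniq n h1 h2, hu, List.map_map] at h3
      exact h3
    have hlen : L = 2 ^ k - 1 := by
      have := congrArg List.length hu
      rw [window_length, List.length_map, hu2, length_rw] at this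
      exact this
    apply hb (n0 - 1)
    have h3 : 2 ^ k + 1 = 1 + (L + 1) := by omega
    have h5 : n0 - 1 + ((1 : ℕ) : ℤ) = n0 := by push_cast; ring
    rw [h3, window_append, h5, window_snoc x n0 L]
    have h4 : bad k = [Sum.inr false] ++ ((rw' k).map Sum.inl ++ [Sum.inr true]) := rfl
    rw [h4, hu, hu2, tp_two hL1]
    congr 1
    rw [window_succ, tp_zero (hn1 (n0 - 1) (by omega))]
    rfl
  refine ⟨i, fun n => if n ≤ n0 then .P else if tp (x (n - 1)) = 2 then .Q else
    .S (Ruler.run i ((window x n0 (n - n0).toNat).map num) (some false)), fun n => ?_⟩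
  have e : n + 1 - 1 = n := by ring
  dsimp only
  rw [e]
  rcases lt_trichotomy n n0 with h1 | h1 | h1
  · rw [if_pos h1.le, if_pos (by omega), tp_zero (hn1 n h1)]; rfl
  · subst h1
    rw [if_pos le_rfl, if_neg (by omega)]
    by_cases h2 : tp (x n) = 2
    · rw [if_pos h2, tp_two h2]; rfl
    · have h3 : tp (x n) = 1 := by
        have := tp_le (x n)
        omega
      obtain ⟨j, hj⟩ := tp_one h3
      have h4 : (n + 1 - n).toNat = 1 := by omega
      rw [if_neg h2, h4, window_succ, List.map_cons, hj]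
      rfl
  · rw [if_neg (show ¬ n ≤ n0 by omega), if_neg (show ¬ n + 1 ≤ n0 by omega)]
    have h2 : tp (x (n - 1)) ≤ tp (x n) := hmono (by omega)
    by_cases h3 : tp (x (n - 1)) = 2
    · have h4 : tp (x n) = 2 := le_antisymm (tp_le _) (h3 ▸ h2)
      rw [if_pos h3, if_pos h4, tp_two h4]; rfl
    · rw [if_neg h3]
      obtain ⟨d, rfl⟩ : ∃ d : ℕ, n = n0 + d := ⟨(n - n0).toNat, by omega⟩
      have e1 : (n0 + (d : ℤ) - n0).toNat = d := by omega
      have e2 : (n0 + (d : ℤ) + 1 - n0).toNat = d + 1 := by omega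
      rw [e1, e2]
      by_cases h4 : tp (x (n0 + d)) = 2
      · rw [if_pos h4, tp_two h4]
        have h5 := hi d h4 (fun m hm => by
          have h6 : tp (x (n0 + m)) ≤ tp (x (n0 + d - 1)) := hmono (by omega)
          have h7 : tp (x n0) ≤ tp (x (n0 + m)) := hmono (by omega)
          have := tp_le (x (n0 + d - 1))
          omega)
        simp only [dl]
        rw [if_neg h5]
      · rw [if_neg h4]
        have h5 : tp (x (n0 + d)) = 1 := by
          have h7 : tp (x n0) ≤ tp (x (n0 + d)) := hmono (by omega)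
          have := tp_le (x (n0 + d))
          omega
        obtain ⟨j, hj⟩ := tp_one h5
        rw [window_snoc, List.map_append, hj, Ruler.run_append]
        rfl

lemma shift_Gk (k : ℕ) (hk : 1 ≤ k) : (Gk k).shift = Xk k :=
  Set.Subset.antisymm (Gk_sub k hk) (Xk_sub k hk)

lemma sd_le (k : ℕ) (hk : 1 ≤ k) : sd (Xk k) ≤ 5 * k :=
  Nat.sInf_le ⟨Gk k, Gk_det k, shift_Gk k hk, card_Gk k⟩

lemma le_sd (k : ℕ) (hk : 1 ≤ k) : k ≤ sd (Xk k) := by
  obtain ⟨G, -, h2, h3⟩ := Nat.sInf_mem (s := detSizes (Xk k))
    ⟨_, Gk k, Gk_det k, shift_Gk k hk, card_Gk k⟩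
  rw [sd, ← h3]
  exact le_card h2

/-- There are a constant `c > 0` and shifts of finite type `X k` (over finite alphabets) with
deterministic presentations such that `sd (X k) → ∞` and `X k` has minimum step at least
`2 ^ (c * sd (X k))`. -/
theorem result : ∃ c : ℝ, 0 < c ∧ ∃ (A : ℕ → Type) (_ : ∀ k, Finite (A k))
    (X : ∀ k, Set (ℤ → A k)),
      (∀ k, IsSFT (X k)) ∧ (∀ k, (detSizes (X k)).Nonempty) ∧
      Tendsto (fun k => sd (X k)) atTop atTop ∧
      ∀ k, (2 : ℝ) ^ (c * (sd (X k) : ℝ)) ≤ (minStep (X k) : ℝ) := by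
  refine ⟨1 / 5, by norm_num, fun k => Al (k + 1), fun k => inferInstance, fun k => Xk (k + 1),
    fun k => ⟨_, isStep_Xk _⟩, fun k => ⟨_, Gk _, Gk_det _, shift_Gk _ (by omega), card_Gk _⟩,
    ?_, fun k => ?_⟩
  · refine tendsto_atTop_mono (fun k => ?_) tendsto_id
    exact (Nat.le_succ k).trans (le_sd (k + 1) (by omega))
  · rw [minStep_Xk (k + 1) (by omega)]
    have h1 : (1 / 5 : ℝ) * (sd (Xk (k + 1)) : ℝ) ≤ ((k + 1 : ℕ) : ℝ) := by
      have := sd_le (k + 1) (by omega)
      have h2 : (sd (Xk (k + 1)) : ℝ) ≤ ((5 * (k + 1) : ℕ) : ℝ) := by exact_mod_cast this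
      push_cast at h2 ⊢
      linarith
    calc (2 : ℝ) ^ ((1 / 5 : ℝ) * (sd (Xk (k + 1)) : ℝ)) ≤ (2 : ℝ) ^ (((k + 1 : ℕ) : ℝ)) :=
          Real.rpow_le_rpow_of_exponent_le (by norm_num) h1
      _ = ((2 ^ (k + 1) : ℕ) : ℝ) := by
          rw [Real.rpow_natCast]; push_cast; ring

end Pool.Agent.Results.MP_bb9d96_lc.ExponentialStep
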